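import Pool.Agent.Q329.NF.Asym

/-!
# 3SUM-Indexing is equivalent to Convolution-3SUM-Indexing with a range of the size of the domain

Data structures in the cell-probe model: the input is stored in `S` cells of `w` bits in an arbitrary
way, and a query is answered by an adaptive algorithm which depends on the query only and probes at
most `T` cells; the preprocessing and all computation with the contents of the probed cells are free.

* 3SUM-Indexing (`HasStructure n u S T w`): the input is two arrays of `n` natural numbers below `2 ^ u`;
  the query `z` asks whether `z` is the sum of an entry of the first and an entry of the second array.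
* Convolution-3SUM-Indexing (`HasConvStructure N S T w`): the input is two functions `f` and `g` from
  `{0, …, N - 1}` to `{0, …, N - 1}`; the query `(k, v)` asks whether there are arguments `i` and `j` with
  `i + j = k` and `f i + g j = v`.

Let `L` be the number of binary digits of `n`.

(1) For every `c` there is `C` such that for every `n` there is `N ≤ C n L ^ 2` such that every structure
with `S` cells and `T` probes for Convolution-3SUM-Indexing with functions on `{0, …, N - 1}` gives a
structure with `C L ^ 2 (S + 1)` cells and `C L ^ 2 (T + 1)` probes, and with cells of the same size, for
3SUM-Indexing with `n` numbers below `2 ^ (c L)`, in particular with all numbers up to `n ^ c`.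

(2) Conversely every structure for 3SUM-Indexing with `N` numbers below `2 ^ b`, `2 N ^ 2 ≤ 2 ^ b`, gives one
with the same parameters for Convolution-3SUM-Indexing with functions on `{0, …, N - 1}`.

So in the cell-probe model the 3SUM-Indexing conjecture for all polynomial universes is equivalent to
the conjecture that Convolution-3SUM-Indexing for two functions from a set of `N` numbers to itself has
no structure with truly subquadratic space and polylogarithmic query time.

The proof of (1): by the universe reduction (`UniverseReduction`) the numbers may be assumed to be below
`n ^ 2` times a power of the logarithm. A prime `q` of size about `n L ^ 2` isolates a pair of entries if no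
other value of their arrays is congruent to them modulo `q`; by Chebyshev's bound every pair is
isolated by more than half of the primes, so `2 L` primes can be chosen which isolate all pairs. For
each of them the functions map the residue of an isolated entry to its quotient. The quotients are
below `n L` up to a constant, and the query `z` becomes the two queries `(z mod q, z div q)` and
`(z mod q + q, z div q - 1)`.
-/

set_option autoImplicit false

namespace Pool.Agent.Results.MP_e016b3_lc.ConvolutionNormalForm

open Pool.Agent.Q329.UR Pool.Agent.Q329.NF

/-- (1) For every `c` there is `C` such that for every `n ≥ 1`, `L = Nat.log 2 n + 1` being its number of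
binary digits, there is `N ≤ C n L ^ 2` such that for all `S`, `T` and `w` with `N ^ 2 ≤ 2 ^ w`: if
Convolution-3SUM-Indexing for functions from `{0, …, N - 1}` to itself has a cell-probe structure with `S`
cells of `w` bits and `T` probes, then 3SUM-Indexing for arrays of `n` numbers below `2 ^ (c L)` has one
with `C L ^ 2 (S + 1)` cells of `w` bits and `C L ^ 2 (T + 1)` probes.

(2) If `2 N ^ 2 ≤ 2 ^ b` and 3SUM-Indexing for arrays of `N` numbers below `2 ^ b` has a structure with `S`
cells of `w` bits and `T` probes, then so has Convolution-3SUM-Indexing for functions from
`{0, …, N - 1}` to itself. -/
theorem result :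
    (∀ c : ℕ, ∃ C : ℕ, ∀ n : ℕ, 1 ≤ n → ∃ N : ℕ,
      N ≤ C * n * (Nat.log 2 n + 1) ^ 2 ∧
      ∀ S T w : ℕ, N ^ 2 ≤ 2 ^ w → HasConvStructure N S T w →
        HasStructure n (c * (Nat.log 2 n + 1)) (C * (Nat.log 2 n + 1) ^ 2 * (S + 1))
          (C * (Nat.log 2 n + 1) ^ 2 * (T + 1)) w) ∧
    ∀ N b S T w : ℕ, 2 * N * N ≤ 2 ^ b → HasStructure N b S T w → HasConvStructure N S T w :=
  ⟨normal_form, fun _ _ _ _ _ hb h => converse hb h⟩

end Pool.Agent.Results.MP_e016b3_lc.ConvolutionNormalForm
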