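import Pool.Agent.Q329.UW.Main

/-!
# 3SUM-Indexing: unique representations are as hard as finding a witness for every query

Data structures for 3SUM-Indexing in the cell-probe model: two arrays of `n` natural numbers below `2 ^ m`
are stored in `S` cells of `w` bits, in an arbitrary way, and a query `z` is answered by an adaptive
algorithm which depends on `z` only and probes at most `T` cells. The preprocessing and all computation
with the contents of the probed cells are free. Two tasks:

* `HasUnique n m S T w`: decide whether `z = A i + B j` for some `i` and `j`, but only for the queries
  with at most one such pair; the answers to the other queries are arbitrary;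
* `HasSearch n m S T w`: for every query `z` find indices `i` and `j` with `z = A i + B j`, or find out that
  there are none.

(1) A structure for the first task for numbers below `2 ^ (m + 2)` gives one for the second task for
numbers below `2 ^ m`, with `32 L ^ 3 S + 2 n` cells of the same size and `32 L ^ 3 T + 32 L ^ 2` probes, `L`
being the number of binary digits of `n`. (2) The converse is obvious. So in the cell-probe model the
3SUM-Indexing conjecture is equivalent to its version for queries with at most one representation.

The proof of (1): keep only one index for every value. If the query `z` has between `2 ^ k` and
`2 ^ (k + 1)` representations, then a random subset of the indices of the first array of density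
`2 ^ (- k - 2)` contains exactly one of them with probability at least `1 / 8`; so `16 L` subsets can be
chosen which together isolate a representation for each of the at most `n ^ 2` sums of this kind. For
each of these subsets and each binary digit of `i` and of `j` there is a structure for the pairs in which
this digit is one. They give the digits of the isolated pair, which is checked with the stored arrays.
-/

set_option autoImplicit false

namespace Pool.Agent.Results.MP_e016b3_lc.UniqueWitness

open Pool.Agent.Q329.HC Pool.Agent.Q329.UW

/-- (1) If `m ≤ w` and 3SUM-Indexing for arrays of `n` numbers below `2 ^ (m + 2)` has a cell-probe
structure with `S` cells of `w` bits and `T` probes which decides all queries with at most one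
representation, then for arrays of `n` numbers below `2 ^ m` there is one with `32 L ^ 3 S + 2 n` cells of
`w` bits and `32 L ^ 3 T + 32 L ^ 2` probes, `L = Nat.log 2 n + 1`, which finds for every query a pair of
indices with this sum or finds out that there is none.

(2) A structure of the second kind gives a structure of the first kind with the same parameters. -/
theorem result :
    (∀ n m S T w : ℕ, m ≤ w → HasUnique n (m + 2) S T w →
      HasSearch n m (32 * (Nat.log 2 n + 1) ^ 3 * S + 2 * n)
        (32 * (Nat.log 2 n + 1) ^ 3 * T + 32 * (Nat.log 2 n + 1) ^ 2) w) ∧
    ∀ n m S T w : ℕ, HasSearch n m S T w → HasUnique n m S T w := by
  refine ⟨fun n m S T w hmw h => search hmw h, fun n m S T w h => ?_⟩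
  obtain ⟨mem, alg, hT, h1⟩ := h
  refine ⟨mem, fun z => (alg z).bind fun r => Alg.out r.isSome, fun z M => ?_,
    fun A B hA hB z _ => ?_⟩
  · rw [Alg.cost_bind]
    exact hT z M
  · rw [Alg.run_bind]
    obtain ⟨h2, h3⟩ := h1 A B hA hB z
    show ((alg z).run (mem A B)).isSome = true ↔ _
    rcases h4 : (alg z).run (mem A B) with _ | p
    · simp only [Option.isSome_none, Bool.false_eq_true, false_iff]
      exact h3 h4
    · simp only [Option.isSome_some, true_iff]
      exact ⟨p.1, p.2, h2 p h4⟩

end Pool.Agent.Results.MP_e016b3_lc.UniqueWitness
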