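import Pool.Agent.Q329.UR.Asym

/-!
# 3SUM-Indexing is hardest for numbers below `n ^ 2` times a power of the logarithm

Data structures for 3SUM-Indexing in the cell-probe model (`HasStructure n m S T w`): two arrays of `n`
natural numbers below `2 ^ m` are stored in `S` cells of `w` bits, in an arbitrary way, and a query `z`
(is `z` the sum of an entry of the first and an entry of the second array?) is answered by an adaptive
algorithm which depends on `z` only and probes at most `T` cells. The preprocessing and all computation
with the contents of the probed cells are free.

Let `L` be the number of binary digits of `n`.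

(1) For every `c` there is `C` such that for every `n` some universe `{0, …, 2 ^ m - 1}` of size at most
`C n ^ 2 L ^ 2` is as hard as the universe `{0, …, 2 ^ (c L) - 1}`, which contains all numbers up to
`n ^ c`: from a structure with `S` cells and `T` probes for the small universe one gets a structure with
`(c L + 2) (S + 1)` cells and `(c L + 2) (2 T + 1)` probes, and with cells of the same size, for the
large one. So a truly subquadratic structure with polylogarithmic query time for numbers up to
`n ^ 2` times a power of the logarithm would refute the conjecture for all polynomial universes.

(2) This is not true for smaller universes: for numbers below `2 ^ m` there is a structure with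
`2 ^ (m + 1)` cells of one bit and one probe, which is truly subquadratic for `2 ^ m ≤ n ^ (2 - ε)`.

The proof of (1): the structure for the large universe stores `c L + 2` primes below `2 ^ m`, which
depend on the arrays, and for each of them the structure for the residues of the arrays. The query `z`
is a sum modulo `q` iff `z mod q` or `z mod q + q` is a sum of residues. For a query that is no sum, each of
the `n ^ 2` differences to the sums has at most `c L` prime divisors; by Chebyshev's bound these are
fewer than half of the primes below `2 ^ m`, so some prime separates at least half of all queries which
are no sums and are not separated yet; after `c L + 2` steps all are separated.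
-/

set_option autoImplicit false

namespace Pool.Agent.Results.MP_e016b3_lc.UniverseReduction

open Pool.Agent.Q329.UR

/-- (1) For every `c` there is `C` such that for every `n ≥ 1`, `L = Nat.log 2 n + 1` being its number of
binary digits, there is `m` with `2 ^ m ≤ C n ^ 2 L ^ 2` such that for all `S`, `T` and `w ≥ m`: if
3SUM-Indexing for arrays of `n` numbers below `2 ^ m` has a cell-probe structure with `S` cells of `w` bits
and `T` probes, then for arrays of `n` numbers below `2 ^ (c L)` (in particular, for numbers up to
`n ^ c`) it has one with `(c L + 2) (S + 1)` cells of `w` bits and `(c L + 2) (2 T + 1)` probes.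

(2) For numbers below `2 ^ m` there is a structure with `2 ^ (m + 1)` cells (of `w ≥ 1` bits) and one
probe. -/
theorem result :
    (∀ c : ℕ, ∃ C : ℕ, ∀ n : ℕ, 1 ≤ n → ∃ m : ℕ,
      2 ^ m ≤ C * n ^ 2 * (Nat.log 2 n + 1) ^ 2 ∧
      ∀ S T w : ℕ, m ≤ w → HasStructure n m S T w →
        HasStructure n (c * (Nat.log 2 n + 1)) ((c * (Nat.log 2 n + 1) + 2) * (S + 1))
          ((c * (Nat.log 2 n + 1) + 2) * (2 * T + 1)) w) ∧
    ∀ n m w : ℕ, 1 ≤ w → HasStructure n m (2 ^ (m + 1)) 1 w :=
  ⟨poly, bit_vector⟩

end Pool.Agent.Results.MP_e016b3_lc.UniverseReduction
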