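import Pool.Agent.Q329.UX.Gen
import Pool.Agent.H587R2.MRC.DS

/-!
# 3SUM-Indexing with unreliable information about absent numbers: space times time is quadratic

The two arrays (sets of at most `n` integers between `-N` and `N`) are given by bits: for both
arrays, all numbers `x` and all tags `j < K`, the bit of the position `(b, x, j)` tells whether `x` is
in the array `b` with the tag `j` (its name). Only arrays in which each number has at most one tag are
considered; the tag has no meaning.

A data structure has `s` cells. Every cell contains an arbitrary nondecreasing real function of all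
these bits and of their negations (unlimited preprocessing, unlimited word length); every function of
the arrays can be written in this form. The query `z` evaluates an arbitrary nondecreasing real
function of `t` numbers. Every one of these numbers is the contents of a cell or, for free in the
space, a nondecreasing function of the bits and negated bits of one of the arrays. Which numbers are
read depends only on `z`. The data structure may be random.

Faults: each negated bit (the information that `x` is not in the array `b` with the tag `j`) is stuck
at `0` while the memory is built, independently with probability `1 / D`. The other bits are reliable.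

Result: let `1928 t ≤ n`, `n ^ 2 ≤ N` and `K ≥ D (log (4 N + 2) + 4)`. If, for all such arrays and all
`z`, the answer to the query `z` is positive with probability at least `4 / 5` under faults if `z` is
the sum of an element of the first array and an element of the second array, and with probability at
most `1 / 4` without faults if it is not, then `n ^ 2 ≤ 192000 s t`.

So a structure with truly subquadratic space and query time `n ^ o(1)`, if there is one (the cells may
be arbitrary functions of the arrays, there is no monotonicity condition), must rely on all the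
information about the absent numbers being correct, although faults are rare (`D` may be large).

The proof: the instance is hidden at random tags; the tags which other numbers would get are as good
as random faulty bits (`Pool/Agent/Y630`), so all negated bits that depend on the instance can be
replaced by `0`. For monotone data structures the tradeoff `ds_bound` of the starting development
`Pool/Agent/H587R2/MRC` is used.
-/

set_option autoImplicit false

namespace Pool.Agent.Results.MP_e016b3_lc.UnreliableNegations

open Pool.Agent.Q329.UX Finset Pool.Agent.Y630.TF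

/-- The positions of one array: the number `x - N` with the tag `j < K`. -/
abbrev Place (N K : ℕ) : Type := Fin (2 * N + 1) × Fin K

/-- The positions: `false` stands for the first array and `true` for the second one. -/
abbrev Position (N K : ℕ) : Type := Bool × Place N K

/-- The array number `b` which is given by the bits `w`. -/
def array {N K : ℕ} (w : Position N K → Bool) (b : Bool) : Finset ℤ :=
  (univ.filter fun x : Fin (2 * N + 1) => ∃ j, w (b, x, j) = true).image
    fun x : Fin (2 * N + 1) => ((x : ℕ) : ℤ) - N

/-- Both arrays have at most `n` elements, and each number has at most one tag in each array. -/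
def Input {N K : ℕ} (n : ℕ) (w : Position N K → Bool) : Prop :=
  (∀ b, (array w b).card ≤ n) ∧
    ∀ b x j j', w (b, x, j) = true → w (b, x, j') = true → j = j'

/-- What a probe reads: a nondecreasing function of the literals of the array `b`, or a cell. -/
inductive Source (N K s : ℕ) : Type
  | free (b : Bool) (f : (Place N K × Bool → Bool) → ℝ) (hf : Monotone f) : Source N K s
  | stored (c : Fin s) : Source N K s

/-- A data structure with `s` cells and `t` probes: every cell contains a nondecreasing real function
of the literals (the bits and the negated bits of all positions), and the query `z` reads `t`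
numbers, which depend only on `z`, and evaluates a nondecreasing real function of them. -/
structure DataStructure (N K s t : ℕ) : Type where
  store : Fin s → (Position N K × Bool → Bool) → ℝ
  store_mono : ∀ c, Monotone (store c)
  probe : ℤ → Fin t → Source N K s
  val : ℤ → (Fin t → ℝ) → ℝ
  val_mono : ∀ z, Monotone (val z)

/-- The number which is read by a probe, if the literals have the values `y`. -/
def DataStructure.read {N K s t : ℕ} (C : DataStructure N K s t) (y : Position N K × Bool → Bool) :
    Source N K s → ℝ
  | Source.free b f _ => f fun q => y ((b, q.1), q.2)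
  | Source.stored c => C.store c y

/-- The answer to the query `z` is positive, if the literals have the values `y`. -/
def DataStructure.Positive {N K s t : ℕ} (C : DataStructure N K s t) (z : ℤ)
    (y : Position N K × Bool → Bool) : Prop :=
  0 < C.val z fun i => C.read y (C.probe z i)

/-- `z` is the sum of an element of the first array and an element of the second array. -/
def IsSum {N K : ℕ} (w : Position N K → Bool) (z : ℤ) : Prop :=
  ∃ x ∈ array w false, ∃ y ∈ array w true, x + y = z

/-- The random data structure `C ρ`, `ρ` uniform, solves 3SUM-Indexing for arrays of at most `n`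
integers between `-N` and `N`, in the presence of faults with probability `1 / D` (`faultyP`, `accP`:
`Pool/Agent/Q329/UX/Gen.lean`). -/
def Tolerates {N K s t : ℕ} {R : Type} (C : R → DataStructure N K s t) (D n : ℕ) : Prop :=
  ∀ w, Input n w → ∀ z : ℤ,
    (IsSum w z → 4 / 5 ≤ faultyP (fun ρ => (C ρ).Positive z) D w) ∧
    (¬ IsSum w z → accP (fun ρ => (C ρ).Positive z) w ≤ 1 / 4)

theorem rlit_le {E X G : Type} [Fintype E] [DecidableEq E] [Fintype X] [DecidableEq X]
    [Fintype G] [DecidableEq G] [AddCommGroup G] (slot : X × G ↪ E) (base : E → Bool) (τ : X → G) {y y' : X → Bool}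
    (h : y ≤ y') : rlit slot base τ y ≤ rlit slot base τ y' := by
  classical
  rintro ⟨e, b⟩
  cases b
  · exact le_rfl
  · unfold rlit
    rw [if_pos rfl, if_pos rfl]
    by_cases h1 : host slot base τ y e = true
    · have h2 : host slot base τ y' e = true := by
        rw [host_true] at h1 ⊢
        rcases h1 with h1 | ⟨x, hx, hs⟩
        · exact Or.inl h1
        · refine Or.inr ⟨x, ?_, hs⟩
          have h3 := h x
          rw [hx] at h3
          exact top_le_iff.mp h3
      rw [h1, h2]
    · rw [Bool.not_eq_true] at h1
      rw [h1]
      exact Bool.false_le _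

/-- Let `1928 t ≤ n`, `n ^ 2 ≤ N`, `D ≥ 1` and `K ≥ D (log (4 N + 2) + 4)`. If a finite nonempty family
of data structures with `s` cells and `t` probes solves 3SUM-Indexing for arrays of at most `n`
integers between `-N` and `N` in the presence of faults with probability `1 / D`, then
`n ^ 2 ≤ 192000 s t`. -/
theorem result (n N s t D K : ℕ) (ht : 1 ≤ t) (hn : 1928 * t ≤ n) (hN : n ^ 2 ≤ N) (hD : 1 ≤ D)
    (hK : D * (Real.log (4 * N + 2) + 4) ≤ K) (R : Type) [Finite R] [Nonempty R]
    (C : R → DataStructure N K s t) (hC : Tolerates C D n) : n ^ 2 ≤ 192000 * (s * t) := by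
  classical
  let _ : Fintype R := Fintype.ofFinite R
  have hDR : (1 : ℝ) ≤ D := by exact_mod_cast hD
  have hNR : (0 : ℝ) ≤ N := Nat.cast_nonneg _
  have hlog : 0 ≤ Real.log (4 * N + 2) := Real.log_nonneg (by linarith)
  have hK0 : 0 < K := by
    have h1 : (0 : ℝ) < K := lt_of_lt_of_le (by positivity) hK
    exact_mod_cast h1
  have : NeZero K := ⟨hK0.ne'⟩
  have hbad : (Fintype.card (Bool × Fin (2 * N + 1)) : ℝ) *
      (1 - 1 / (D : ℝ)) ^ Fintype.card (Fin K) ≤ 1 / 40 := by
    rw [Fintype.card_prod, Fintype.card_bool, Fintype.card_fin, Fintype.card_fin]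
    push_cast
    have h2 := Pool.Agent.Y630.TG.places_bad (D := D) (K := K) (n := 4 * (N : ℝ) + 2) (by omega)
      (by positivity) hK
    calc (2 : ℝ) * (2 * (N : ℝ) + 1) * (1 - 1 / (D : ℝ)) ^ K
        = (4 * (N : ℝ) + 2) * (1 - 1 / (D : ℝ)) ^ K := by ring
      _ ≤ _ := h2
  let slot : (Bool × Fin (2 * N + 1)) × Fin K ↪ Position N K :=
    (Equiv.prodAssoc Bool (Fin (2 * N + 1)) (Fin K)).toEmbedding
  let enc : Finset ℤ × Finset ℤ → Bool × Fin (2 * N + 1) → Bool :=
    fun A q => decide (((q.2 : ℕ) : ℤ) - N ∈ (if q.1 = true then A.2 else A.1))
  have henc : Monotone enc := by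
    intro A A' hA q
    show decide _ ≤ decide _
    by_cases h1 : ((q.2 : ℕ) : ℤ) - N ∈ (if q.1 = true then A.2 else A.1)
    · have h2 : ((q.2 : ℕ) : ℤ) - N ∈ (if q.1 = true then A'.2 else A'.1) := by
        split_ifs at h1 ⊢ with hq
        · exact hA.2 h1
        · exact hA.1 h1
      rw [decide_eq_true h1, decide_eq_true h2]
    · rw [decide_eq_false h1]
      exact Bool.false_le _
  -- the hidden words
  have hword : ∀ (y : Bool × Fin (2 * N + 1) → Bool) (τ : Bool × Fin (2 * N + 1) → Fin K) b x j,
      host slot (fun _ => false) τ y (b, x, j) = true ↔ y (b, x) = true ∧ τ (b, x) = j := by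
    intro y τ b x j
    rw [host_true]
    constructor
    · rintro (h | ⟨q, h1, h2⟩)
      · exact absurd h (by simp)
      · have h3 : (q, τ q) = ((b, x), j) :=
          (Equiv.prodAssoc Bool (Fin (2 * N + 1)) (Fin K)).injective h2
        have h4 : q = (b, x) := congrArg Prod.fst h3
        have h5 : τ q = j := congrArg Prod.snd h3
        rw [h4] at h1 h5
        exact ⟨h1, h5⟩
    · rintro ⟨h1, h2⟩
      exact Or.inr ⟨(b, x), h1, by rw [h2]; rfl⟩
  have harr : ∀ (A : Finset ℤ × Finset ℤ) (τ : Bool × Fin (2 * N + 1) → Fin K) (b : Bool),
      (∀ x ∈ (if b = true then A.2 else A.1), |x| ≤ (N : ℤ)) →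
      array (host slot (fun _ => false) τ (enc A)) b = if b = true then A.2 else A.1 := by
    intro A τ b hA
    ext z
    unfold array
    rw [Finset.mem_image]
    constructor
    · rintro ⟨x, hx, rfl⟩
      obtain ⟨j, hj⟩ := (Finset.mem_filter.mp hx).2
      rw [hword] at hj
      exact of_decide_eq_true hj.1
    · intro hz
      have h1 := abs_le.mp (hA z hz)
      have h2 : ((z + N).toNat : ℤ) = z + N := Int.toNat_of_nonneg (by linarith [h1.1])
      have h3 : (z + N).toNat < 2 * N + 1 := by
        have : ((z + N).toNat : ℤ) ≤ 2 * N := by rw [h2]; linarith [h1.2]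
        omega
      refine ⟨⟨(z + N).toNat, h3⟩, Finset.mem_filter.mpr ⟨mem_univ _,
        τ (b, ⟨(z + N).toNat, h3⟩), ?_⟩, ?_⟩
      · rw [hword]
        refine ⟨decide_eq_true ?_, rfl⟩
        show (((z + N).toNat : ℕ) : ℤ) - N ∈ (if b = true then A.2 else A.1)
        rw [h2, add_sub_cancel_right]
        exact hz
      · show (((z + N).toNat : ℕ) : ℤ) - N = z
        rw [h2, add_sub_cancel_right]
  -- the monotone data structures
  let conv : (ω : R × (Bool × Fin (2 * N + 1) → Fin K)) → Source N K s →
      Pool.Agent.H587R2.MRC.Source s := fun ω S => match S with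
    | Source.free false f hf => Pool.Agent.H587R2.MRC.Source.first
        (fun A => f fun q => rlit slot (fun _ => false) ω.2 (enc (A, ∅)) ((false, q.1), q.2))
        (fun A A' h => hf fun q => rlit_le slot _ ω.2
          (henc (show ((A, ∅) : Finset ℤ × Finset ℤ) ≤ (A', ∅) from ⟨h, le_rfl⟩)) _)
    | Source.free true f hf => Pool.Agent.H587R2.MRC.Source.second
        (fun A => f fun q => rlit slot (fun _ => false) ω.2 (enc (∅, A)) ((true, q.1), q.2))
        (fun A A' h => hf fun q => rlit_le slot _ ω.2
          (henc (show ((∅, A) : Finset ℤ × Finset ℤ) ≤ (∅, A') from ⟨le_rfl, h⟩)) _)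
    | Source.stored c => Pool.Agent.H587R2.MRC.Source.stored c
  let DS : R × (Bool × Fin (2 * N + 1) → Fin K) → Pool.Agent.H587R2.MRC.DS s t := fun ω =>
    { store := fun c A => (C ω.1).store c (rlit slot (fun _ => false) ω.2 (enc A))
      store_mono := fun c A A' h => (C ω.1).store_mono c (rlit_le slot _ _ (henc h))
      probe := fun z i => conv ω ((C ω.1).probe z i)
      val := (C ω.1).val
      val_mono := (C ω.1).val_mono }
  have hlocal : ∀ (A A' : Finset ℤ × Finset ℤ) (τ : Bool × Fin (2 * N + 1) → Fin K) (b : Bool),
      (if b = true then A.2 else A.1) = (if b = true then A'.2 else A'.1) →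
      ∀ q : Place N K × Bool, rlit slot (fun _ => false) τ (enc A) ((b, q.1), q.2) =
        rlit slot (fun _ => false) τ (enc A') ((b, q.1), q.2) := by
    rintro A A' τ b hb ⟨⟨x, j⟩, u⟩
    cases u
    · rfl
    · unfold rlit
      rw [if_pos rfl, if_pos rfl, Bool.eq_iff_iff, hword, hword]
      show decide _ = true ∧ _ ↔ decide _ = true ∧ _
      rw [decide_eq_true_iff, decide_eq_true_iff]
      show ((x : ℕ) : ℤ) - N ∈ (if b = true then A.2 else A.1) ∧ _ ↔
        ((x : ℕ) : ℤ) - N ∈ (if b = true then A'.2 else A'.1) ∧ _
      rw [hb]
  have hread : ∀ ω A (S : Source N K s), (DS ω).read A (conv ω S) =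
      (C ω.1).read (rlit slot (fun _ => false) ω.2 (enc A)) S := by
    intro ω A S
    match S with
    | Source.free false f hf =>
      show f _ = f _
      exact congrArg f (funext fun q => hlocal (A.1, ∅) A ω.2 false rfl q)
    | Source.free true f hf =>
      show f _ = f _
      exact congrArg f (funext fun q => hlocal (∅, A.2) A ω.2 true rfl q)
    | Source.stored c => rfl
  have hans : ∀ ω A z, 0 < (DS ω).answer A z ↔
      (C ω.1).Positive z (rlit slot (fun _ => false) ω.2 (enc A)) := by
    intro ω A z
    show 0 < (C ω.1).val z (fun i => (DS ω).read A (conv ω ((C ω.1).probe z i))) ↔ _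
    have h1 : (fun i => (DS ω).read A (conv ω ((C ω.1).probe z i))) =
        fun i => (C ω.1).read (rlit slot (fun _ => false) ω.2 (enc A)) ((C ω.1).probe z i) :=
      funext fun i => hread ω A _
    rw [h1]
    rfl
  have hmono : ∀ (z : ℤ) (ρ : R) (u v : Position N K × Bool → Bool), u ≤ v →
      (C ρ).Positive z u → (C ρ).Positive z v := by
    intro z ρ u v huv hu
    refine lt_of_lt_of_le hu ((C ρ).val_mono z fun i => ?_)
    cases (C ρ).probe z i with
    | free b f hf => exact hf fun q => huv _
    | stored c => exact (C ρ).store_mono c huv
  have hΩ0 : (0 : ℝ) < Fintype.card (R × (Bool × Fin (2 * N + 1) → Fin K)) := by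
    have : Nonempty (R × (Bool × Fin (2 * N + 1) → Fin K)) := inferInstance
    exact_mod_cast Fintype.card_pos
  have hsolve : Pool.Agent.H587R2.MRC.DSSolves n N (1 / 4)
      (fun _ : R × (Bool × Fin (2 * N + 1) → Fin K) => 1 / (Fintype.card (R × (Bool × Fin (2 * N + 1) → Fin K)) : ℝ)) DS := by
    refine ⟨fun _ => by positivity, ?_, ?_⟩
    · rw [Finset.sum_const, Finset.card_univ, nsmul_eq_mul, mul_one_div_cancel hΩ0.ne']
    · intro A hA1 hA2 hA3 hA4 z _
      have hb : ∀ b : Bool, ∀ x ∈ (if b = true then A.2 else A.1), |x| ≤ (N : ℤ) := by
        intro b x hx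
        split_ifs at hx with h
        · exact hA4 x hx
        · exact hA3 x hx
      have hin : ∀ τ, Input n (host slot (fun _ => false) τ (enc A)) := by
        intro τ
        refine ⟨fun b => ?_, fun b x j j' h1 h2 => ?_⟩
        · rw [harr A τ b (hb b)]
          split_ifs
          · exact hA2
          · exact hA1
        · rw [hword] at h1 h2
          rw [← h1.2, ← h2.2]
      have hsum : ∀ τ, IsSum (host slot (fun _ => false) τ (enc A)) z ↔
          ∃ x ∈ A.1, ∃ y ∈ A.2, x + y = z := by
        intro τ
        unfold IsSum
        rw [harr A τ false (hb false), harr A τ true (hb true)]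
        rfl
      rw [Finset.sum_const, nsmul_eq_mul, mul_one_div, le_div_iff₀ hΩ0]
      by_cases hz : ∃ x ∈ A.1, ∃ y ∈ A.2, x + y = z
      · have h1 := hide_yes (fun ρ => (C ρ).Positive z) (hmono z) (by omega : 0 < D) slot
          (fun _ => false) hbad (enc A) (fun τ => (hC _ (hin τ) z).1 ((hsum τ).mpr hz))
        rw [Nat.card_eq_fintype_card (α := R × (Bool × Fin (2 * N + 1) → Fin K)),
          Nat.card_eq_fintype_card, Fintype.card_subtype] at h1
        refine le_trans (le_of_eq (by norm_num)) (h1.trans (le_of_eq ?_))
        congr 2
        ext ω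
        rw [Finset.mem_filter, Finset.mem_filter]
        refine and_congr_right fun _ => ?_
        unfold Pool.Agent.H587R2.MRC.DS.Correct
        rw [hans]
        simp only [hz, iff_true]
      · have h1 := hide_no (fun ρ => (C ρ).Positive z) (hmono z) slot
          (fun _ => false) (enc A) (fun τ => (hC _ (hin τ) z).2 (fun h => hz ((hsum τ).mp h)))
        rw [Nat.card_eq_fintype_card (α := R × (Bool × Fin (2 * N + 1) → Fin K)),
          Nat.card_eq_fintype_card, Fintype.card_subtype] at h1
        have h2 : (univ.filter fun ω => (DS ω).Correct A z) =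
            univ.filter fun ω : R × (Bool × Fin (2 * N + 1) → Fin K) => ¬ (C ω.1).Positive z
              (rlit slot (fun _ => false) ω.2 (enc A)) := by
          ext ω
          rw [Finset.mem_filter, Finset.mem_filter]
          refine and_congr_right fun _ => ?_
          unfold Pool.Agent.H587R2.MRC.DS.Correct
          rw [hans]
          simp only [hz, iff_false]
        have h3 := Finset.card_filter_add_card_filter_not (s := (univ : Finset (R × (Bool × Fin (2 * N + 1) → Fin K))))
          (p := fun ω : R × (Bool × Fin (2 * N + 1) → Fin K) => (C ω.1).Positive z (rlit slot (fun _ => false) ω.2 (enc A)))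
        rw [Finset.card_univ] at h3
        have h4 : ((univ.filter fun ω : R × (Bool × Fin (2 * N + 1) → Fin K) => (C ω.1).Positive z
            (rlit slot (fun _ => false) ω.2 (enc A))).card : ℝ) +
            ((univ.filter fun ω : R × (Bool × Fin (2 * N + 1) → Fin K) => ¬ (C ω.1).Positive z
              (rlit slot (fun _ => false) ω.2 (enc A))).card : ℝ) = Fintype.card (R × (Bool × Fin (2 * N + 1) → Fin K)) := by
          exact_mod_cast h3
        have h5 : ((univ.filter fun ω => (DS ω).Correct A z).card : ℝ) =
            ((univ.filter fun ω : R × (Bool × Fin (2 * N + 1) → Fin K) => ¬ (C ω.1).Positive z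
              (rlit slot (fun _ => false) ω.2 (enc A))).card : ℝ) := by rw [h2]
        have h6 : (1 / 2 + 1 / 4 : ℝ) * Fintype.card (R × (Bool × Fin (2 * N + 1) → Fin K)) ≤
            ((univ.filter fun ω => (DS ω).Correct A z).card : ℝ) := by
          rw [h5]
          linarith
        refine h6.trans (le_of_eq ?_)
        congr 2
  have hfin := Pool.Agent.H587R2.MRC.ds_bound (n := n) (N := N) (s := s) (t := t) (δ := 1 / 4)
    (by norm_num) (by norm_num) ht (by
      have : (1928 : ℝ) * t ≤ n := by exact_mod_cast hn
      linarith) hN _ DS hsolve
  have h1 : (n : ℝ) ^ 2 ≤ 192000 * ((s : ℝ) * t) := by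
    have : (1 / 4 : ℝ) ^ 2 * (n : ℝ) ^ 2 = (n : ℝ) ^ 2 / 16 := by ring
    rw [this] at hfin
    linarith
  exact_mod_cast h1

end Pool.Agent.Results.MP_e016b3_lc.UnreliableNegations
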